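import Mathlib
import Pool.Agent.Helper23.RD.Num

/-!
# Reconstructible subsets of near-critical random distance graphs: there is no constant

For every `n`-element set `V` of reals which is linearly independent over `ℚ`, or just has no two
different subsets of the same size with the same sum, and every `c > 0`, the random graph
`G(V, λ / n)` with `λ = 1 + c / ln n` has, with high probability, a reconstructible subset of size at
least `c² / 384 · n / ln² n`.  So there is no constant `C > 0` as asked for.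
-/

set_option autoImplicit false

open Finset Filter Topology

namespace Pool.Agent.Results.MP_be70a4_pr.NoConstant

/-- The set of all unordered pairs of distinct elements of `V`. -/
noncomputable def pairs (V : Finset ℝ) : Finset (Sym2 V) := univ.filter (fun e => ¬ e.IsDiag)

open Classical in
/-- The probability that the random graph `G(V, p)`, in which every pair of elements of `V` is an edge
independently with probability `p`, has the property `A`: the sum over all sets `S` of pairs such that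
the graph with edge set `S` has the property. -/
noncomputable def prob (V : Finset ℝ) (p : ℝ) (A : SimpleGraph V → Prop) : ℝ :=
  ∑ S ∈ (pairs V).powerset.filter
      (fun S : Finset (Sym2 V) => A (SimpleGraph.fromEdgeSet (S : Set (Sym2 V)))),
    p ^ #S * (1 - p) ^ (#(pairs V) - #S)

/-- `φ : V → ℝ` is a `G`-rigid injection. -/
def IsRigid (V : Finset ℝ) (G : SimpleGraph V) (φ : V → ℝ) : Prop :=
  Function.Injective φ ∧ ∀ u v, G.Adj u v → |φ u - φ v| = |(u : ℝ) - v|

/-- `U ⊆ V` is reconstructible (from the lengths of the edges of `G`). -/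
def Reconstructible (V : Finset ℝ) (G : SimpleGraph V) (U : Finset V) : Prop :=
  ∀ φ, IsRigid V G φ → ∀ u ∈ U, ∀ v ∈ U, |φ u - φ v| = |(u : ℝ) - v|

/-- Clause (i) of the question, for every sequence `V_n` of sets of `n` reals. -/
def ClauseI (C ε : ℝ) : Prop :=
  ∀ V : ℕ → Finset ℝ, (∀ n, #(V n) = n) → ∃ c : ℝ, 0 < c ∧
    Tendsto (fun n : ℕ => prob (V n) ((1 + (C + ε) / Real.log n) / n) (fun G =>
      ∃ U, Reconstructible (V n) G U ∧ c * (n / Real.log n ^ 2) ≤ #U)) atTop (𝓝 1)

/-- Clause (ii) of the question, for every sequence `V_n` of sets of `n` reals. -/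
def ClauseII (C ε : ℝ) : Prop :=
  ∀ V : ℕ → Finset ℝ, (∀ n, #(V n) = n) → ∀ δ : ℝ, 0 < δ →
    Tendsto (fun n : ℕ => prob (V n) ((1 + (C - ε) / Real.log n) / n) (fun G =>
      ∀ U, Reconstructible (V n) G U → (#U : ℝ) ≤ δ * (n / Real.log n ^ 2))) atTop (𝓝 1)

/-- No two different subsets of `V` of the same size have the same sum. -/
def NoRelation (V : Finset ℝ) : Prop :=
  ∀ A B : Finset ℝ, A ⊆ V → B ⊆ V → #A = #B → ∑ a ∈ A, a = ∑ b ∈ B, b → A = B

/-- the powers of two -/
noncomputable def twos (n : ℕ) : Finset ℝ := (range n).image (fun i => (2 : ℝ) ^ i)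

open Pool.Agent.Helper23.RD (HasRec noRec NoRel)
open Pool.Agent.Helper23.LC

theorem prob_eq (V : Finset ℝ) (p : ℝ) (A : SimpleGraph V → Prop) (f : Finset (Sym2 V) → ℝ)
    (hf : ∀ S : Finset (Sym2 V), (A (SimpleGraph.fromEdgeSet (S : Set (Sym2 V))) → f S = 1) ∧
      (¬ A (SimpleGraph.fromEdgeSet (S : Set (Sym2 V))) → f S = 0)) :
    prob V p A = EE (Pool.Agent.Helper23.RD.pairs V) p f := by
  classical
  unfold prob EE
  rw [Finset.sum_filter]
  apply Finset.sum_congr rfl
  intro S _
  by_cases h : A (SimpleGraph.fromEdgeSet (S : Set (Sym2 V)))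
  · rw [if_pos h, (hf S).1 h, mul_one]
    rfl
  · rw [if_neg h, (hf S).2 h, mul_zero]

theorem prob_compl (V : Finset ℝ) (p : ℝ) (A : SimpleGraph V → Prop) :
    prob V p A + prob V p (fun G => ¬ A G) = 1 := by
  classical
  rw [prob_eq V p A (fun S => if A (SimpleGraph.fromEdgeSet (S : Set (Sym2 V))) then 1 else 0)
    (fun S => ⟨fun h => if_pos h, fun h => if_neg h⟩),
    prob_eq V p (fun G => ¬ A G)
      (fun S => if A (SimpleGraph.fromEdgeSet (S : Set (Sym2 V))) then 0 else 1)
    (fun S => ⟨fun h => if_neg h, fun h => if_pos (not_not.mp h)⟩), ← EE_add]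
  have h : (fun S : Finset (Sym2 V) =>
      (if A (SimpleGraph.fromEdgeSet (S : Set (Sym2 V))) then (1 : ℝ) else 0) +
      (if A (SimpleGraph.fromEdgeSet (S : Set (Sym2 V))) then (0 : ℝ) else 1)) = fun _ => 1 := by
    funext S
    split_ifs <;> norm_num
  rw [h, EE_const]

theorem prob_mono (V : Finset ℝ) (p : ℝ) (hp0 : 0 ≤ p) (hp1 : p ≤ 1) {A B : SimpleGraph V → Prop}
    (h : ∀ G, A G → B G) : prob V p A ≤ prob V p B := by
  classical
  rw [prob_eq V p A (fun S => if A (SimpleGraph.fromEdgeSet (S : Set (Sym2 V))) then 1 else 0)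
    (fun S => ⟨fun h => if_pos h, fun h => if_neg h⟩),
    prob_eq V p B (fun S => if B (SimpleGraph.fromEdgeSet (S : Set (Sym2 V))) then 1 else 0)
    (fun S => ⟨fun h => if_pos h, fun h => if_neg h⟩)]
  apply EE_mono _ _ hp0 hp1
  intro S _
  by_cases hA : A (SimpleGraph.fromEdgeSet (S : Set (Sym2 V)))
  · rw [if_pos hA, if_pos (h _ hA)]
  · rw [if_neg hA]
    split_ifs <;> norm_num

theorem prob_nonneg (V : Finset ℝ) (p : ℝ) (hp0 : 0 ≤ p) (hp1 : p ≤ 1) (A : SimpleGraph V → Prop) :
    0 ≤ prob V p A := by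
  have h := prob_mono V p hp0 hp1 (A := fun _ => False) (B := A) (fun _ h => h.elim)
  have h0 : prob V p (fun _ => False) = 0 := by
    classical
    unfold prob
    simp
  linarith

theorem prob_le_one (V : Finset ℝ) (p : ℝ) (hp0 : 0 ≤ p) (hp1 : p ≤ 1) (A : SimpleGraph V → Prop) :
    prob V p A ≤ 1 := by
  have h := prob_compl V p A
  have h2 := prob_nonneg V p hp0 hp1 (fun G => ¬ A G)
  linarith

theorem prob_rec (V : Finset ℝ) (p x : ℝ) :
    prob V p (fun G => ∃ U, Reconstructible V G U ∧ x ≤ #U)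
      = 1 - EE (Pool.Agent.Helper23.RD.pairs V) p (noRec V ⌈x⌉₊) := by
  classical
  have h := prob_compl V p (fun G => ∃ U, Reconstructible V G U ∧ x ≤ #U)
  rw [prob_eq V p (fun G => ¬ ∃ U, Reconstructible V G U ∧ x ≤ #U) (noRec V ⌈x⌉₊)] at h
  · linarith
  · intro S
    have key : HasRec V ⌈x⌉₊ S ↔ ∃ U, Reconstructible V
        (SimpleGraph.fromEdgeSet (S : Set (Sym2 V))) U ∧ x ≤ #U := by
      constructor
      · rintro ⟨U, h1, h2⟩
        exact ⟨U, h1, Nat.ceil_le.mp h2⟩
      · rintro ⟨U, h1, h2⟩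
        exact ⟨U, h1, Nat.ceil_le.mpr h2⟩
    rw [← key]
    constructor
    · intro h1
      unfold noRec
      rw [if_neg h1]
    · intro h1
      rw [not_not] at h1
      unfold noRec
      rw [if_pos h1]

/-- linearly independent sets have no relations -/
theorem noRelation_of_linearIndependent {V : Finset ℝ}
    (hV : LinearIndependent ℚ (fun v : V => (v : ℝ))) : NoRelation V := by
  classical
  intro A B hA hB _ hsum
  rw [Fintype.linearIndependent_iff] at hV
  have hind : ∀ A : Finset ℝ, A ⊆ V → ∑ v : V, (if (v : ℝ) ∈ A then (v : ℝ) else 0) = ∑ a ∈ A, a := by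
    intro A hA
    rw [Finset.sum_coe_sort V (fun v => if v ∈ A then v else 0), Finset.sum_ite_mem,
      Finset.inter_eq_right.mpr hA]
  have h1 := hV (fun v : V => (if (v : ℝ) ∈ A then 1 else 0) - (if (v : ℝ) ∈ B then 1 else 0)) (by
    have h2 : ∀ v : V, (((if (v : ℝ) ∈ A then 1 else 0) - (if (v : ℝ) ∈ B then 1 else 0) : ℚ)) •
        (v : ℝ) = (if (v : ℝ) ∈ A then (v : ℝ) else 0) - (if (v : ℝ) ∈ B then (v : ℝ) else 0) := by
      intro v
      split_ifs <;> simp
    simp_rw [h2]
    rw [Finset.sum_sub_distrib, hind A hA, hind B hB, hsum, sub_self])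
  ext x
  constructor
  · intro hx
    have h2 := h1 ⟨x, hA hx⟩
    simp only at h2
    rw [if_pos hx] at h2
    by_contra hxB
    rw [if_neg hxB] at h2
    norm_num at h2
  · intro hx
    have h2 := h1 ⟨x, hB hx⟩
    simp only at h2
    rw [if_pos hx] at h2
    by_contra hxA
    rw [if_neg hxA] at h2
    norm_num at h2

theorem two_pow_inj : Function.Injective (fun i : ℕ => (2 : ℝ) ^ i) := by
  intro i j h
  exact pow_right_injective₀ (by norm_num) (by norm_num) h

theorem card_twos (n : ℕ) : #(twos n) = n := by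
  rw [twos, Finset.card_image_of_injective _ two_pow_inj, Finset.card_range]

theorem noRelation_twos (n : ℕ) : NoRelation (twos n) := by
  classical
  intro A B hA hB _ hsum
  obtain ⟨A', hA', rfl⟩ := Finset.subset_image_iff.mp hA
  obtain ⟨B', hB', rfl⟩ := Finset.subset_image_iff.mp hB
  rw [Finset.sum_image (fun a _ b _ h => two_pow_inj h),
    Finset.sum_image (fun a _ b _ h => two_pow_inj h)] at hsum
  have h1 : ∑ i ∈ A', 2 ^ i = ∑ i ∈ B', 2 ^ i := by exact_mod_cast hsum
  have h2 : A' = B' := Finset.geomSum_injective (le_refl 2) h1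
  rw [h2]

/-- powers of the logarithm are negligible -/
theorem tendsto_div_log (k : ℕ) : Tendsto (fun n : ℕ => (n : ℝ) / Real.log n ^ k) atTop atTop := by
  have h1 : Tendsto (fun x : ℝ => Real.log x ^ k / x) atTop (𝓝 0) :=
    (Real.isLittleO_pow_log_id_atTop (n := k)).tendsto_div_nhds_zero
  have h2 : Tendsto (fun n : ℕ => Real.log n ^ k / (n : ℝ)) atTop (𝓝 0) :=
    h1.comp tendsto_natCast_atTop_atTop
  have h3 : ∀ᶠ n : ℕ in atTop, 0 < Real.log n ^ k / (n : ℝ) := by
    filter_upwards [eventually_gt_atTop 2] with n hn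
    have h4 : (1 : ℝ) < n := by exact_mod_cast (by omega : 1 < n)
    have h5 := Real.log_pos h4
    positivity
  have h4 := (tendsto_nhdsWithin_iff.mpr ⟨h2, h3⟩ :
    Tendsto (fun n : ℕ => Real.log n ^ k / (n : ℝ)) atTop (𝓝[>] 0)).inv_tendsto_nhdsGT_zero
  refine h4.congr fun n => ?_
  rw [Pi.inv_apply, inv_div]

theorem explicit {V : Finset ℝ} (hV : NoRelation V) (d : ℝ) (hd0 : 0 < d) (hd : d ≤ 1 / 4)
    (hbig : 128 ≤ d ^ 2 * #V) :
    1 - (Real.exp (-(d ^ 3 * #V / 4096)) + Real.exp (-(d ^ 5 * #V / 147456))) ≤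
      prob V ((1 + 2 * d) / #V) (fun G => ∃ U, Reconstructible V G U ∧ d ^ 2 * #V / 96 ≤ #U) := by
  rw [prob_rec]
  have h := Pool.Agent.Helper23.RD.main_explicit (V := V) hV d hd0 hd hbig
    (ℓ := ⌈d ^ 2 * (#V : ℝ) / 96⌉₊) (Nat.ceil_lt_add_one (by positivity)).le
  linarith

theorem asymptotic (V : ℕ → Finset ℝ) (hc : ∀ n, #(V n) = n) (hV : ∀ n, NoRelation (V n)) (c : ℝ)
    (hc0 : 0 < c) : Tendsto (fun n : ℕ => prob (V n) ((1 + c / Real.log n) / n) (fun G =>
      ∃ U, Reconstructible (V n) G U ∧ c ^ 2 / 384 * (n / Real.log n ^ 2) ≤ #U)) atTop (𝓝 1) := by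
  -- the numbers
  have hlog : Tendsto (fun n : ℕ => Real.log (n : ℝ)) atTop atTop :=
    Real.tendsto_log_atTop.comp tendsto_natCast_atTop_atTop
  have e1 : ∀ᶠ n : ℕ in atTop, 2 * c ≤ Real.log n := hlog.eventually_ge_atTop _
  have e2 : ∀ᶠ n : ℕ in atTop, 128 ≤ c ^ 2 / 4 * ((n : ℝ) / Real.log n ^ 2) :=
    ((tendsto_div_log 2).const_mul_atTop (by positivity : 0 < c ^ 2 / 4)).eventually_ge_atTop _
  have e3 : ∀ᶠ n : ℕ in atTop, 1 ≤ n := eventually_ge_atTop 1
  have t3 : Tendsto (fun n : ℕ => Real.exp (-(c ^ 3 / 8 / 4096 * ((n : ℝ) / Real.log n ^ 3)))) atTop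
      (𝓝 0) :=
    Real.tendsto_exp_atBot.comp (tendsto_neg_atTop_atBot.comp
      ((tendsto_div_log 3).const_mul_atTop (by positivity)))
  have t5 : Tendsto (fun n : ℕ => Real.exp (-(c ^ 5 / 32 / 147456 * ((n : ℝ) / Real.log n ^ 5)))) atTop
      (𝓝 0) :=
    Real.tendsto_exp_atBot.comp (tendsto_neg_atTop_atBot.comp
      ((tendsto_div_log 5).const_mul_atTop (by positivity)))
  have tl : Tendsto (fun n : ℕ => 1 - (Real.exp (-(c ^ 3 / 8 / 4096 * ((n : ℝ) / Real.log n ^ 3))) +
      Real.exp (-(c ^ 5 / 32 / 147456 * ((n : ℝ) / Real.log n ^ 5))))) atTop (𝓝 1) := by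
    have := (tendsto_const_nhds (x := (1 : ℝ))).sub (t3.add t5)
    simpa using this
  refine tendsto_of_tendsto_of_tendsto_of_le_of_le' tl tendsto_const_nhds ?_ ?_
  · filter_upwards [e1, e2, e3] with n h1 h2 h3
    have hl : 0 < Real.log n := by linarith
    have hn : (0 : ℝ) < n := by exact_mod_cast h3
    have h4 := explicit (hV n) (c / (2 * Real.log n)) (by positivity) (by
      rw [div_le_iff₀ (by positivity)]; linarith) (by
      rw [hc n]
      refine h2.trans (le_of_eq ?_)
      field_simp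
      norm_num)
    rw [hc n] at h4
    have k1 : 2 * (c / (2 * Real.log n)) = c / Real.log n := by field_simp
    have k2 : (c / (2 * Real.log n)) ^ 3 * n / 4096 = c ^ 3 / 8 / 4096 * (n / Real.log n ^ 3) := by
      field_simp
      norm_num
    have k3 : (c / (2 * Real.log n)) ^ 5 * n / 147456
        = c ^ 5 / 32 / 147456 * (n / Real.log n ^ 5) := by
      field_simp
      norm_num
    have k4 : (c / (2 * Real.log n)) ^ 2 * n / 96 = c ^ 2 / 384 * (n / Real.log n ^ 2) := by
      field_simp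
      norm_num
    rw [k1, k2, k3, k4] at h4
    exact h4
  · filter_upwards [e1, eventually_ge_atTop 2] with n h1 h3
    have hl : 0 < Real.log n := by linarith
    have hn : (2 : ℝ) ≤ n := by exact_mod_cast h3
    have h5 : c / Real.log n ≤ 1 / 2 := by
      rw [div_le_iff₀ hl]; linarith
    apply prob_le_one
    · positivity
    · rw [div_le_one (by linarith)]
      linarith

/-- **Main result.**
(1) Let `V` be a finite set of reals without two different subsets of the same size with the same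
sum, for instance linearly independent over `ℚ`, let `n = #V` and `0 < d ≤ 1/4`, `d² n ≥ 128`. Then
`G(V, (1 + 2 d) / n)` has a reconstructible subset of size at least `d² n / 96` with probability at
least `1 - exp(- d³ n / 4096) - exp(- d⁵ n / 147456)`.
(2) For every sequence of such sets, `#V_n = n`, and every `c > 0`, with high probability
`G(V_n, λ / n)`, `λ = 1 + c / ln n`, has a reconstructible subset of size at least
`c² / 384 · n / ln² n`.
(3) So for such sequences clause (ii) of the question fails for all `0 < ε < C`, in the strong form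
that for some `δ > 0` the probability of its event tends to zero.
(4) There is no constant `C > 0` such that (i) and (ii) hold for every `ε > 0`; not even one for which
(ii) holds for one `ε < C`. -/
theorem result :
    (∀ V : Finset ℝ, NoRelation V → ∀ d : ℝ, 0 < d → d ≤ 1 / 4 → 128 ≤ d ^ 2 * #V →
      1 - (Real.exp (-(d ^ 3 * #V / 4096)) + Real.exp (-(d ^ 5 * #V / 147456))) ≤
        prob V ((1 + 2 * d) / #V) (fun G => ∃ U, Reconstructible V G U ∧ d ^ 2 * #V / 96 ≤ #U)) ∧
    (∀ V : Finset ℝ, LinearIndependent ℚ (fun v : V => (v : ℝ)) → NoRelation V) ∧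
    (∀ V : ℕ → Finset ℝ, (∀ n, #(V n) = n) → (∀ n, NoRelation (V n)) →
      (∀ c : ℝ, 0 < c → Tendsto (fun n : ℕ => prob (V n) ((1 + c / Real.log n) / n) (fun G =>
        ∃ U, Reconstructible (V n) G U ∧ c ^ 2 / 384 * (n / Real.log n ^ 2) ≤ #U)) atTop (𝓝 1)) ∧
      ∀ C ε : ℝ, 0 < ε → ε < C → ∃ δ : ℝ, 0 < δ ∧
        Tendsto (fun n : ℕ => prob (V n) ((1 + (C - ε) / Real.log n) / n) (fun G =>
          ∀ U, Reconstructible (V n) G U → (#U : ℝ) ≤ δ * (n / Real.log n ^ 2))) atTop (𝓝 0)) ∧
    (∀ C ε : ℝ, 0 < ε → ε < C → ¬ ClauseII C ε) ∧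
    ¬ ∃ C : ℝ, 0 < C ∧ ∀ ε : ℝ, 0 < ε → ClauseI C ε ∧ ClauseII C ε := by
  have h3 : ∀ V : ℕ → Finset ℝ, (∀ n, #(V n) = n) → (∀ n, NoRelation (V n)) →
      ∀ C ε : ℝ, 0 < ε → ε < C → ∃ δ : ℝ, 0 < δ ∧
        Tendsto (fun n : ℕ => prob (V n) ((1 + (C - ε) / Real.log n) / n) (fun G =>
          ∀ U, Reconstructible (V n) G U → (#U : ℝ) ≤ δ * (n / Real.log n ^ 2))) atTop (𝓝 0) := by
    intro V hc hV C ε _ hε
    have hc0 : 0 < C - ε := by linarith
    refine ⟨(C - ε) ^ 2 / 768, by positivity, ?_⟩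
    have h1 := asymptotic V hc hV (C - ε) hc0
    have h2 : Tendsto (fun n : ℕ => 1 - prob (V n) ((1 + (C - ε) / Real.log n) / n) (fun G =>
        ∃ U, Reconstructible (V n) G U ∧ (C - ε) ^ 2 / 384 * (n / Real.log n ^ 2) ≤ #U)) atTop
        (𝓝 0) := by
      have := (tendsto_const_nhds (x := (1 : ℝ))).sub h1
      simpa using this
    have hlog : Tendsto (fun n : ℕ => Real.log (n : ℝ)) atTop atTop :=
      Real.tendsto_log_atTop.comp tendsto_natCast_atTop_atTop
    refine tendsto_of_tendsto_of_tendsto_of_le_of_le' tendsto_const_nhds h2 ?_ ?_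
    · filter_upwards [hlog.eventually_ge_atTop (2 * (C - ε)), eventually_ge_atTop 2] with n h1 h3
      have hl : 0 < Real.log n := by linarith
      have hn : (2 : ℝ) ≤ n := by exact_mod_cast h3
      have h5 : (C - ε) / Real.log n ≤ 1 / 2 := by
        rw [div_le_iff₀ hl]; linarith
      apply prob_nonneg
      · positivity
      · rw [div_le_one (by linarith)]
        linarith
    · filter_upwards [hlog.eventually_ge_atTop (2 * (C - ε)), eventually_ge_atTop 2] with n h1 h3
      have hl : 0 < Real.log n := by linarith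
      have hn : (2 : ℝ) ≤ n := by exact_mod_cast h3
      have h5 : (C - ε) / Real.log n ≤ 1 / 2 := by
        rw [div_le_iff₀ hl]; linarith
      have hp0 : 0 ≤ (1 + (C - ε) / Real.log n) / n := by positivity
      have hp1 : (1 + (C - ε) / Real.log n) / n ≤ 1 := by
        rw [div_le_one (by linarith)]
        linarith
      have h6 := prob_compl (V n) ((1 + (C - ε) / Real.log n) / n) (fun G =>
        ∃ U, Reconstructible (V n) G U ∧ (C - ε) ^ 2 / 384 * (n / Real.log n ^ 2) ≤ #U)
      have h7 := prob_mono (V n) ((1 + (C - ε) / Real.log n) / n) hp0 hp1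
        (A := fun G => ∀ U, Reconstructible (V n) G U →
          (#U : ℝ) ≤ (C - ε) ^ 2 / 768 * (n / Real.log n ^ 2))
        (B := fun G => ¬ ∃ U, Reconstructible (V n) G U ∧
          (C - ε) ^ 2 / 384 * (n / Real.log n ^ 2) ≤ #U) (by
        rintro G hG ⟨U, hU1, hU2⟩
        have h8 := hG U hU1
        have h9 : 0 < (C - ε) ^ 2 / 768 * (n / Real.log n ^ 2) := by positivity
        have h10 : (C - ε) ^ 2 / 384 * (n / Real.log n ^ 2)
            = 2 * ((C - ε) ^ 2 / 768 * (n / Real.log n ^ 2)) := by ring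
        linarith)
      linarith
  have h4 : ∀ C ε : ℝ, 0 < ε → ε < C → ¬ ClauseII C ε := by
    intro C ε h0 hε hII
    obtain ⟨δ, hδ, ht⟩ := h3 twos card_twos noRelation_twos C ε h0 hε
    exact zero_ne_one (tendsto_nhds_unique ht (hII twos card_twos δ hδ))
  refine ⟨fun V hV d hd0 hd hbig => explicit hV d hd0 hd hbig,
    fun V hV => noRelation_of_linearIndependent hV,
    fun V hc hV => ⟨fun c hc0 => asymptotic V hc hV c hc0, h3 V hc hV⟩, h4, ?_⟩
  rintro ⟨C, hC, h⟩
  exact h4 C (C / 2) (by linarith) (by linarith) (h (C / 2) (by linarith)).2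

end Pool.Agent.Results.MP_be70a4_pr.NoConstant
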